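import Pool.Agent.R788.SA.NotAnosov

/-!
# The simple `k`-Anosov domain is not a maximal domain of discontinuity for `d ≥ 4`

The definitions (closed hyperbolic surfaces, the unit tangent bundle and the geodesic flow, the
Birman-Series set, simple `k`-Anosov representations, the character variety, `Out(Γ)` and domains
of discontinuity) are those of `Pool/Agent/Y473/SA/Defs.lean`.

The new domain of discontinuity is the union of the simple `k`-Anosov domain and of the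
`Out(Γ)`-orbit of a neighbourhood of the class of `η ⊕ η ⊕ 1` (for `k = 1, d - 1`) or of `η ⊕ 1`
(for `2 ≤ k ≤ d - 2`), where `η` is the inclusion of the Fuchsian group `Γ` into `SL(2, ℝ)`.
-/

set_option autoImplicit false

open scoped MatrixGroups UpperHalfPlane Matrix
open UpperHalfPlane Topology Pool.Agent.Y473.SA Pool.Agent.R788.SA

namespace Pool.Agent.Results.MP_c30652_gt.NotMaximal

/-- `U` is a maximal domain of discontinuity: a domain of discontinuity that is not properly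
contained in another one. -/
def IsMaximalDomainOfDiscontinuity {Γ : Subgroup SL(2, ℝ)} {d : ℕ} (U : Set (CharVar Γ d)) : Prop :=
  IsDomainOfDiscontinuity U ∧
    ∀ D : Set (CharVar Γ d), IsDomainOfDiscontinuity D → ¬ U ⊂ D

variable {Γ : Subgroup SL(2, ℝ)} {d : ℕ}

/-! ### Continuity of the coefficients of the characteristic polynomial -/

theorem continuous_coefSum : Continuous fun A : Matrix (Fin d) (Fin d) ℂ => coefSum A := by
  unfold coefSum
  refine continuous_finsetSum _ fun i _ => ?_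
  have h1 : (fun A : Matrix (Fin d) (Fin d) ℂ => A.charpoly.coeff i) =
      fun A : Matrix (Fin d) (Fin d) ℂ => MvPolynomial.eval (fun p : Fin d × Fin d => A p.1 p.2)
        ((Matrix.charpoly.univ ℂ (Fin d)).coeff i) := by
    funext A
    have := Matrix.charpoly.univ_coeff_eval₂Hom (Fin d) (RingHom.id ℂ)
      (fun p : Fin d × Fin d => A p.1 p.2) i
    exact this.symm
  have h2 : Continuous fun A : Matrix (Fin d) (Fin d) ℂ => A.charpoly.coeff i := by
    rw [h1]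
    refine (MvPolynomial.continuous_eval _).comp ?_
    exact continuous_pi fun p => continuous_apply_apply p.1 p.2
  exact h2.norm

/-- The function `[ρ] ↦ coefSum (ρ γ)` on the character variety. -/
noncomputable def hfun (γ : Γ) : CharVar Γ d → ℝ :=
  Quotient.lift (fun ρ : CRep Γ d => coefSum (ρ.1.1 γ : Matrix (Fin d) (Fin d) ℂ)) (by
    rintro ρ ρ' ⟨h, hh⟩
    beta_reduce
    rw [hh γ, coefSum_conj])

theorem hfun_mk (γ : Γ) (ρ : CRep Γ d) :
    hfun γ (Quotient.mk _ ρ) = coefSum (ρ.1.1 γ : Matrix (Fin d) (Fin d) ℂ) := rfl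

theorem continuous_eval_rep (γ : Γ) :
    Continuous fun ρ : CRep Γ d => (ρ.1.1 γ : Matrix (Fin d) (Fin d) ℂ) :=
  continuous_subtype_val.comp ((continuous_apply γ).comp
    (continuous_subtype_val.comp continuous_subtype_val))

theorem continuous_hfun (γ : Γ) : Continuous (hfun γ : CharVar Γ d → ℝ) :=
  Continuous.quotient_lift (continuous_coefSum.comp (continuous_eval_rep γ)) _

/-! ### The action -/

theorem twist_mk (φ : MulAut Γ) (ρ : CRep Γ d) : twist φ (Quotient.mk (conjSetoid Γ d) ρ) =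
    Quotient.mk (conjSetoid Γ d) ⟨twistRep φ ρ.1, twistRep_completelyReducible φ ρ.2⟩ := rfl

theorem twist_mul (φ ψ : MulAut Γ) (x : CharVar Γ d) : twist φ (twist ψ x) = twist (φ * ψ) x := by
  obtain ⟨ρ, rfl⟩ := Quotient.exists_rep x
  rfl

theorem twist_one (x : CharVar Γ d) : twist (1 : MulAut Γ) x = x := by
  obtain ⟨ρ, rfl⟩ := Quotient.exists_rep x
  rfl

theorem continuous_twist (φ : MulAut Γ) : Continuous (twist φ : CharVar Γ d → CharVar Γ d) := by
  apply Continuous.quotient_map'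
  apply Continuous.subtype_mk
  apply Continuous.subtype_mk
  exact continuous_pi fun g => (continuous_apply (φ⁻¹ g)).comp
    (continuous_subtype_val.comp continuous_subtype_val)

theorem twist_image (φ : MulAut Γ) (U : Set (CharVar Γ d)) :
    twist φ '' U = twist φ⁻¹ ⁻¹' U := by
  ext x
  constructor
  · rintro ⟨y, hy, rfl⟩
    change twist φ⁻¹ (twist φ y) ∈ U
    rwa [twist_mul, inv_mul_cancel, twist_one]
  · intro hx
    exact ⟨twist φ⁻¹ x, hx, by rw [twist_mul, mul_inv_cancel, twist_one]⟩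

theorem isOpen_twist (φ : MulAut Γ) {U : Set (CharVar Γ d)} (hU : IsOpen U) :
    IsOpen (twist φ '' U) := by
  rw [twist_image]
  exact hU.preimage (continuous_twist _)

/-! ### Outer automorphisms -/

instance instNormalInn : ((MulAut.conj : Γ →* MulAut Γ).range).Normal := by
  constructor
  rintro _ ⟨g, rfl⟩ φ
  refine ⟨φ g, ?_⟩
  ext1 x
  change φ g * x * (φ g)⁻¹ = φ (g * φ⁻¹ x * g⁻¹)
  rw [map_mul, map_mul, map_inv, MulAut.apply_inv_self]

theorem finite_inv {P : MulAut Γ → Prop}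
    (h : {q : Out Γ | ∃ φ : MulAut Γ, (φ : Out Γ) = q ∧ P φ}.Finite) :
    {q : Out Γ | ∃ φ : MulAut Γ, (φ : Out Γ) = q ∧ P φ⁻¹}.Finite := by
  refine (h.image fun q => q⁻¹).subset ?_
  rintro _ ⟨φ, rfl, hφ⟩
  exact ⟨(φ⁻¹ : MulAut Γ), ⟨φ⁻¹, rfl, hφ⟩, by
    change ((φ⁻¹ : MulAut Γ) : Out Γ)⁻¹ = (φ : Out Γ)
    rw [← QuotientGroup.mk_inv, inv_inv]⟩

/-- The set of the outer automorphisms that map a point of `A` to a point of `B`. -/
def ret (A B : Set (CharVar Γ d)) : Set (Out Γ) :=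
  {q | ∃ φ : MulAut Γ, (φ : Out Γ) = q ∧ ∃ x ∈ A, twist φ x ∈ B}

theorem ret_symm {A B : Set (CharVar Γ d)} (h : (ret A B).Finite) : (ret B A).Finite := by
  refine (finite_inv (P := fun φ => ∃ x ∈ A, twist φ x ∈ B) h).subset ?_
  rintro _ ⟨φ, rfl, x, hx, hx'⟩
  exact ⟨φ, rfl, twist φ x, hx', by rwa [twist_mul, inv_mul_cancel, twist_one]⟩

/-- A set whose translates leave every compact set. -/
def Strong (V : Set (CharVar Γ d)) : Prop := ∀ K : Set (CharVar Γ d), IsCompact K → (ret V K).Finite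

theorem Strong.twist {V : Set (CharVar Γ d)} (h : Strong V) (ψ : MulAut Γ) :
    Strong (Pool.Agent.Y473.SA.twist ψ '' V) := by
  intro K hK
  refine ((h K hK).image fun q => q * ((ψ⁻¹ : MulAut Γ) : Out Γ)).subset ?_
  rintro _ ⟨φ, rfl, _, ⟨x, hx, rfl⟩, hx'⟩
  refine ⟨((φ * ψ : MulAut Γ) : Out Γ), ⟨φ * ψ, rfl, x, hx, by rwa [← twist_mul]⟩, ?_⟩
  change ((φ * ψ : MulAut Γ) : Out Γ) * ((ψ⁻¹ : MulAut Γ) : Out Γ) = (φ : Out Γ)
  rw [← QuotientGroup.mk_mul, mul_inv_cancel_right]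

/-- The union of a domain of discontinuity and of the orbit of an open strong set is a domain of
discontinuity. -/
theorem union_dod {A V : Set (CharVar Γ d)} (hA : IsDomainOfDiscontinuity A) (hV : IsOpen V)
    (hVs : Strong V) : IsDomainOfDiscontinuity (A ∪ ⋃ ψ : MulAut Γ, twist ψ '' V) := by
  obtain ⟨hA1, hA2, hA3⟩ := hA
  refine ⟨hA1.union (isOpen_iUnion fun ψ => isOpen_twist ψ hV), ?_, ?_⟩
  · intro φ x hx
    rcases hx with hx | hx
    · exact Or.inl (hA2 φ x hx)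
    · right
      obtain ⟨ψ, y, hy, rfl⟩ := Set.mem_iUnion.1 hx
      exact Set.mem_iUnion.2 ⟨φ * ψ, y, hy, (twist_mul φ ψ y).symm⟩
  · intro K hK hKc
    have hKA : IsCompact (K \ A) := hKc.diff hA1
    obtain ⟨t, ht⟩ := hKA.elim_finite_subcover (fun ψ : MulAut Γ => twist ψ '' V)
      (fun ψ => isOpen_twist ψ hV) (by
        intro x hx
        exact (hK hx.1).resolve_left hx.2)
    set U : Set (CharVar Γ d) := ⋃ ψ ∈ t, twist ψ '' V with hU
    have hUo : IsOpen U := isOpen_biUnion fun ψ _ => isOpen_twist ψ hV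
    have hUs : ∀ K' : Set (CharVar Γ d), IsCompact K' → (ret U K').Finite := by
      intro K' hK'
      refine (t.finite_toSet.biUnion fun ψ _ => hVs.twist ψ K' hK').subset ?_
      rintro _ ⟨φ, rfl, x, hx, hx'⟩
      rw [hU] at hx
      simp only [Set.mem_iUnion] at hx
      obtain ⟨ψ, hψ, hx⟩ := hx
      simp only [Set.mem_iUnion]
      exact ⟨ψ, hψ, φ, rfl, x, hx, hx'⟩
    have hK1 : IsCompact (K \ U) := hKc.diff hUo
    have hK1A : K \ U ⊆ A := by
      intro x hx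
      by_contra hxA
      exact hx.2 (ht ⟨hx.1, hxA⟩)
    have f1 := hUs K hKc
    have f2 := ret_symm f1
    have f3 := hA3 (K \ U) hK1A hK1
    refine ((f1.union f2).union f3).subset ?_
    rintro _ ⟨φ, rfl, x, hx, hx'⟩
    by_cases hxU : x ∈ U
    · exact Or.inl (Or.inl ⟨φ, rfl, x, hxU, hx'⟩)
    · by_cases hxU' : twist φ x ∈ U
      · exact Or.inl (Or.inr ⟨φ, rfl, x, hx, hxU'⟩)
      · exact Or.inr ⟨φ, rfl, x, ⟨hx, hxU⟩, hx', hxU'⟩

/-! ### The open set -/

/-- The representations close to a given one on a finite set, up to conjugation. -/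
def nearSet (ρ₀ : Γ → SL(d, ℂ)) (F : Set Γ) (ε : ℝ) : Set (CharVar Γ d) :=
  {x | ∃ ρ : CRep Γ d, Quotient.mk _ ρ = x ∧ ∃ h : SL(d, ℂ), ∀ δ ∈ F, ∀ i j,
    ‖((h * ρ.1.1 δ * h⁻¹ : SL(d, ℂ)) : Matrix (Fin d) (Fin d) ℂ) i j -
      (ρ₀ δ : Matrix (Fin d) (Fin d) ℂ) i j‖ < ε}

theorem isOpen_nearSet (ρ₀ : Γ → SL(d, ℂ)) {F : Set Γ} (hF : F.Finite) (ε : ℝ) :
    IsOpen (nearSet ρ₀ F ε : Set (CharVar Γ d)) := by
  have hq : IsQuotientMap (Quotient.mk (conjSetoid Γ d)) := isQuotientMap_quotient_mk'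
  rw [← hq.isOpen_preimage]
  have h1 : Quotient.mk (conjSetoid Γ d) ⁻¹' (nearSet ρ₀ F ε) = ⋃ h : SL(d, ℂ), ⋂ δ ∈ F,
      {ρ : CRep Γ d | ∀ i j, ‖((h * ρ.1.1 δ * h⁻¹ : SL(d, ℂ)) : Matrix (Fin d) (Fin d) ℂ) i j -
        (ρ₀ δ : Matrix (Fin d) (Fin d) ℂ) i j‖ < ε} := by
    ext ρ
    simp only [Set.mem_preimage, Set.mem_iUnion, Set.mem_iInter, Set.mem_ofPred_eq]
    constructor
    · rintro ⟨ρ', hρ', h, hh⟩
      obtain ⟨k, hk⟩ := Quotient.exact hρ'
      refine ⟨h * k⁻¹, fun δ hδ i j => ?_⟩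
      have e : h * k⁻¹ * ρ.1.1 δ * (h * k⁻¹)⁻¹ = h * ρ'.1.1 δ * h⁻¹ := by
        rw [hk δ]; group
      rw [e]
      exact hh δ hδ i j
    · rintro ⟨h, hh⟩
      exact ⟨ρ, rfl, h, hh⟩
  rw [h1]
  refine isOpen_iUnion fun h => hF.isOpen_biInter fun δ _ => ?_
  simp only [Set.ofPred_forall]
  refine isOpen_iInter_of_finite fun i => isOpen_iInter_of_finite fun j => ?_
  apply isOpen_lt _ continuous_const
  apply Continuous.norm
  apply Continuous.sub _ continuous_const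
  have h2 : Continuous fun ρ : CRep Γ d =>
      ((h * ρ.1.1 δ * h⁻¹ : SL(d, ℂ)) : Matrix (Fin d) (Fin d) ℂ) := by
    simp only [Matrix.SpecialLinearGroup.coe_mul]
    exact (continuous_const.mul (continuous_eval_rep δ)).mul continuous_const
  exact (continuous_apply_apply i j).comp h2

theorem strong_nearSet (hΓ : IsClosedSurface Γ) {m n : ℕ} (e : Fin d ≃ (Fin 2 × Fin m) ⊕ Fin n)
    (hm : 0 < m) : ∃ (F : Set Γ) (ε : ℝ), F.Finite ∧ 0 < ε ∧
      Strong (nearSet (fun γ => R0 e γ) F ε : Set (CharVar Γ d)) := by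
  obtain ⟨F, ε, T, hF, hε, hT, hgr⟩ := growth hΓ e hm
  refine ⟨F, ε, hF, hε, ?_⟩
  intro K hK
  have hB : ∀ γ : Γ, ∃ B : ℝ, ∀ y ∈ K, hfun γ y ≤ B := by
    intro γ
    obtain ⟨B, hB⟩ := hK.bddAbove_image (f := hfun γ) (continuous_hfun γ).continuousOn
    exact ⟨B, fun y hy => hB ⟨y, hy, rfl⟩⟩
  choose B hB using hB
  have hfin := outFin hΓ fun γ => Real.exp (T * (|B γ⁻¹| + 1) / 2) + 1
  refine (finite_inv (P := fun φ => ∀ γ, |tr (φ γ)| ≤ Real.exp (T * (|B γ⁻¹| + 1) / 2) + 1)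
    hfin).subset ?_
  rintro _ ⟨φ, rfl, x, ⟨ρ, rfl, h, hh⟩, hx⟩
  refine ⟨φ, rfl, fun γ => ?_⟩
  by_cases h1 : φ⁻¹ γ = 1
  · rw [h1, tr_eq]
    have e1 : ((1 : Γ) : SL(2, ℝ)) 0 0 + ((1 : Γ) : SL(2, ℝ)) 1 1 = 2 := by
      rw [Subgroup.coe_one, Matrix.SpecialLinearGroup.coe_one, Matrix.one_apply_eq, Matrix.one_apply_eq]
      norm_num
    rw [e1]
    have : 1 ≤ Real.exp (T * (|B γ⁻¹| + 1) / 2) := Real.one_le_exp (by positivity)
    rw [abs_of_pos (by norm_num)]
    linarith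
  · obtain ⟨c, l, hl, hc⟩ := hΓ.exists_axis h1
    have hlB : l ≤ T * (|B γ⁻¹| + 1) := by
      by_cases hlT : T ≤ l
      · have h2 := hgr ⟨fun g => h * ρ.1.1 g * h⁻¹, fun a b => by
          change h * ρ.1.1 (a * b) * h⁻¹ = (h * ρ.1.1 a * h⁻¹) * (h * ρ.1.1 b * h⁻¹)
          rw [ρ.1.2]
          group⟩ hh _ c l hlT hc
        rw [coefSum_conj] at h2
        have h3 := hB γ⁻¹ _ hx
        rw [twist_mk, hfun_mk] at h3
        have h4 : (twistRep φ ρ.1).1 γ⁻¹ = ρ.1.1 (φ⁻¹ γ)⁻¹ := by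
          simp only [twistRep]
          rw [map_inv]
        rw [h4] at h3
        have h5 : (⌊l / T⌋₊ : ℝ) ≤ (3 : ℝ) ^ ⌊l / T⌋₊ := by
          have : ⌊l / T⌋₊ < 3 ^ ⌊l / T⌋₊ := Nat.lt_pow_self (by norm_num)
          exact_mod_cast this.le
        have h6 := Nat.lt_floor_add_one (l / T)
        rw [div_lt_iff₀ hT] at h6
        have h7 : (⌊l / T⌋₊ : ℝ) ≤ |B γ⁻¹| := h5.trans (h2.trans (h3.trans (le_abs_self _)))
        have h8 : ((⌊l / T⌋₊ : ℝ) + 1) * T ≤ (|B γ⁻¹| + 1) * T := by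
          apply mul_le_mul_of_nonneg_right _ hT.le
          linarith
        linarith
      · push Not at hlT
        have := abs_nonneg (B γ⁻¹)
        nlinarith
    refine (tr_le_of_length hc).trans ?_
    have h2 : Real.exp (l / 2) ≤ Real.exp (T * (|B γ⁻¹| + 1) / 2) := Real.exp_le_exp.2 (by linarith)
    have h3 : Real.exp (-(l / 2)) ≤ 1 := Real.exp_le_one_iff.2 (by linarith)
    linarith

/-- The main statement for a given decomposition. -/
theorem main (hΓ : IsClosedSurface Γ) {m n k : ℕ} (e : Fin d ≃ (Fin 2 × Fin m) ⊕ Fin n)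
    (hm : 0 < m) (hk : (0 < k ∧ k < m) ∨ (m < k ∧ k < m + n) ∨ (m + n < k ∧ k < d)) :
    ∃ V : Set (CharVar Γ d), IsDomainOfDiscontinuity V ∧ ¬ V ⊆ simpleAnosovDomain Γ d k ∧
      ∀ U : Set (CharVar Γ d), IsDomainOfDiscontinuity U → IsDomainOfDiscontinuity (U ∪ V) := by
  obtain ⟨F, ε, hF, hε, hs⟩ := strong_nearSet (d := d) hΓ e hm
  have ho := isOpen_nearSet (d := d) (fun γ : Γ => R0 e γ) hF ε
  have hempty : IsDomainOfDiscontinuity (∅ : Set (CharVar Γ d)) := by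
    refine ⟨isOpen_empty, fun _ _ h => h.elim, fun K hK _ => ?_⟩
    have : {q : Out Γ | ∃ φ : MulAut Γ, (φ : Out Γ) = q ∧ ∃ x ∈ K, twist φ x ∈ K} = ∅ := by
      ext q
      simp only [Set.mem_ofPred_eq, Set.mem_empty_iff_false, iff_false]
      rintro ⟨φ, -, x, hx, -⟩
      exact hK hx
    rw [this]
    exact Set.finite_empty
  refine ⟨⋃ ψ : MulAut Γ, twist ψ '' (nearSet (fun γ => R0 e γ) F ε), ?_, ?_, ?_⟩
  · have := union_dod hempty ho hs
    rwa [Set.empty_union] at this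
  · intro hsub
    have hmem : Quotient.mk (conjSetoid Γ d) ⟨rho Γ e, rho_red hΓ e⟩ ∈
        ⋃ ψ : MulAut Γ, twist ψ '' (nearSet (fun γ => R0 e γ) F ε) := by
      refine Set.mem_iUnion.2 ⟨1, _, ?_, twist_one _⟩
      refine ⟨_, rfl, 1, fun δ _ i j => ?_⟩
      have : (1 : SL(d, ℂ)) * (rho Γ e).1 δ * 1⁻¹ = R0 e δ := by
        rw [one_mul, inv_one, mul_one]; rfl
      simp only
      rw [this, sub_self, norm_zero]
      exact hε
    obtain ⟨ρ, hρ, hρ'⟩ := hsub hmem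
    obtain ⟨h, hh⟩ := Quotient.exact hρ'.symm
    exact not_anosov hΓ e hk ρ.1 h hh hρ
  · intro U hU
    exact union_dod hU ho hs

/-- For `d ≥ 4` and `1 ≤ k ≤ d - 1` the simple `k`-Anosov domain of a closed hyperbolic surface
`S = ℍ / Γ` in the character variety `χ(Γ, SL(d, ℂ))` is not a maximal domain of discontinuity:
there is a domain of discontinuity `V` which is not contained in it, and such that the union of `V`
with any domain of discontinuity is a domain of discontinuity. -/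
theorem result (Γ : Subgroup SL(2, ℝ)) (hΓ : IsClosedSurface Γ) (d k : ℕ) (hd : 4 ≤ d)
    (hk : 1 ≤ k) (hk' : k ≤ d - 1) :
    ¬ IsMaximalDomainOfDiscontinuity (simpleAnosovDomain Γ d k) ∧
    (IsDomainOfDiscontinuity (simpleAnosovDomain Γ d k) →
      ∃ D : Set (CharVar Γ d), IsDomainOfDiscontinuity D ∧ simpleAnosovDomain Γ d k ⊂ D) ∧
    ∃ V : Set (CharVar Γ d), IsDomainOfDiscontinuity V ∧ ¬ V ⊆ simpleAnosovDomain Γ d k ∧
      ∀ U : Set (CharVar Γ d), IsDomainOfDiscontinuity U → IsDomainOfDiscontinuity (U ∪ V) := by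
  have key : ∃ V : Set (CharVar Γ d), IsDomainOfDiscontinuity V ∧
      ¬ V ⊆ simpleAnosovDomain Γ d k ∧
      ∀ U : Set (CharVar Γ d), IsDomainOfDiscontinuity U → IsDomainOfDiscontinuity (U ∪ V) := by
    by_cases hmid : 2 ≤ k ∧ k ≤ d - 2
    · obtain ⟨e⟩ : Nonempty (Fin d ≃ (Fin 2 × Fin 1) ⊕ Fin (d - 2)) := by
        rw [← Fintype.card_eq]
        simp only [Fintype.card_fin, Fintype.card_sum, Fintype.card_prod]
        omega
      exact main hΓ e one_pos (by omega)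
    · obtain ⟨e⟩ : Nonempty (Fin d ≃ (Fin 2 × Fin 2) ⊕ Fin (d - 4)) := by
        rw [← Fintype.card_eq]
        simp only [Fintype.card_fin, Fintype.card_sum, Fintype.card_prod]
        omega
      exact main hΓ e two_pos (by omega)
  have h2 : IsDomainOfDiscontinuity (simpleAnosovDomain Γ d k) →
      ∃ D : Set (CharVar Γ d), IsDomainOfDiscontinuity D ∧ simpleAnosovDomain Γ d k ⊂ D := by
    intro hA
    obtain ⟨V, -, hV, hU⟩ := key
    refine ⟨_, hU _ hA, Set.subset_union_left, fun h => hV fun x hx => h (Or.inr hx)⟩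
  refine ⟨?_, h2, key⟩
  rintro ⟨hA, hmax⟩
  obtain ⟨D, hD, hlt⟩ := h2 hA
  exact hmax D hD hlt

end Pool.Agent.Results.MP_c30652_gt.NotMaximal
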